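import Mathlib

set_option autoImplicit false

/-! Algebra of a non-real base in `ℚ(i)`. -/

namespace Pool.Agent.Q48.GB

open Complex

/-- `α` is a non-real element of `ℚ(i)` with `|α| > 1`, and `a2 X^2 + a1 X + a0` is its primitive
minimal polynomial. -/
structure IsBase (α : ℂ) (a2 a1 a0 : ℤ) : Prop where
  gauss : ∃ r s : ℚ, α = (r : ℂ) + (s : ℂ) * Complex.I
  nonreal : α.im ≠ 0
  big : 1 < ‖α‖
  root : (a2 : ℂ) * α ^ 2 + a1 * α + a0 = 0
  pos : 0 < a2
  coprime : Int.gcd (Int.gcd a0 a1) a2 = 1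

/-- the lattice `a2 ℤ + (a2 α + a1) ℤ` -/
def Lat (α : ℂ) (a2 a1 : ℤ) : Set ℂ :=
  {z | ∃ m n : ℤ, z = (a2 : ℂ) * m + ((a2 : ℂ) * α + a1) * n}

lemma Lat_sub {α : ℂ} {a2 a1 : ℤ} {z z' : ℂ} (hz : z ∈ Lat α a2 a1) (hz' : z' ∈ Lat α a2 a1) :
    z - z' ∈ Lat α a2 a1 := by
  obtain ⟨m, n, rfl⟩ := hz
  obtain ⟨m', n', rfl⟩ := hz'
  refine ⟨m - m', n - n', ?_⟩
  push_cast
  ring

lemma exists_pq {α : ℂ} (h : ∃ r s : ℚ, α = (r : ℂ) + (s : ℂ) * Complex.I) :
    ∃ p q : GaussianInt, IsCoprime p q ∧ q ≠ 0 ∧ α * (q : ℂ) = (p : ℂ) := by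
  classical
  obtain ⟨r, s, hrs⟩ := h
  set u : ℤ := r.num * s.den
  set v : ℤ := s.num * r.den
  set n : ℤ := r.den * s.den
  have hn : n ≠ 0 := by
    have h1 : (r.den : ℤ) ≠ 0 := by exact_mod_cast r.den_ne_zero
    have h2 : (s.den : ℤ) ≠ 0 := by exact_mod_cast s.den_ne_zero
    exact mul_ne_zero h1 h2
  have hx : α * (n : ℂ) = ((⟨u, v⟩ : GaussianInt) : ℂ) := by
    rw [GaussianInt.toComplex_def', hrs]
    have h1 : (r : ℂ) * r.den = r.num := by exact_mod_cast Rat.mul_den_eq_num r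
    have h2 : (s : ℂ) * s.den = s.num := by exact_mod_cast Rat.mul_den_eq_num s
    simp only [u, v, n]
    push_cast
    linear_combination (s.den : ℂ) * h1 + (r.den : ℂ) * Complex.I * h2
  have hy : ((⟨n, 0⟩ : GaussianInt) : ℂ) = (n : ℂ) := by
    rw [GaussianInt.toComplex_def']; simp
  set x : GaussianInt := ⟨u, v⟩
  set y : GaussianInt := ⟨n, 0⟩
  have hy0 : y ≠ 0 := by
    intro h0
    have : n = 0 := by
      have := congrArg Zsqrtd.re h0
      simpa [y] using this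
    exact hn this
  obtain ⟨g, hg⟩ : ∃ g : GaussianInt, g = EuclideanDomain.gcd x y := ⟨_, rfl⟩
  have hgx : g ∣ x := by rw [hg]; exact EuclideanDomain.gcd_dvd_left x y
  have hgy : g ∣ y := by rw [hg]; exact EuclideanDomain.gcd_dvd_right x y
  obtain ⟨p, hp⟩ := hgx
  obtain ⟨q, hq⟩ := hgy
  have hg0 : g ≠ 0 := by
    rintro rfl
    rw [zero_mul] at hq
    exact hy0 hq
  refine ⟨p, q, ?_, ?_, ?_⟩
  · have h1 := EuclideanDomain.gcd_eq_gcd_ab x y
    rw [← hg] at h1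
    refine ⟨EuclideanDomain.gcdA x y, EuclideanDomain.gcdB x y, ?_⟩
    apply mul_left_cancel₀ hg0
    have h2 : g * (EuclideanDomain.gcdA x y * p + EuclideanDomain.gcdB x y * q) =
        (g * p) * EuclideanDomain.gcdA x y + (g * q) * EuclideanDomain.gcdB x y := by ring
    rw [h2, ← hp, ← hq, ← h1, mul_one]
  · rintro rfl
    rw [mul_zero] at hq
    exact hy0 hq
  · have h1 : (g : ℂ) ≠ 0 := by
      intro h0
      exact hg0 (GaussianInt.toComplex_eq_zero.1 h0)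
    apply mul_left_cancel₀ h1
    have h2 : (x : ℂ) = (g : ℂ) * p := by rw [hp, GaussianInt.toComplex_mul]
    have h3 : (y : ℂ) = (g : ℂ) * q := by rw [hq, GaussianInt.toComplex_mul]
    rw [← h2, ← hx, ← hy, h3]
    ring


/-- the second root -/
lemma IsBase.sum_eq {α : ℂ} {a2 a1 a0 : ℤ} (h : IsBase α a2 a1 a0) :
    (a1 : ℝ) = -2 * a2 * α.re ∧ (a0 : ℝ) = a2 * Complex.normSq α := by
  have h1 := congrArg Complex.im h.root
  have h2 := congrArg Complex.re h.root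
  simp only [pow_two, Complex.add_im, Complex.mul_im, Complex.intCast_re, Complex.intCast_im,
    Complex.add_re, Complex.mul_re, Complex.zero_im, Complex.zero_re, zero_mul, add_zero,
    sub_zero] at h1 h2
  have h3 : (a1 : ℝ) = -2 * a2 * α.re := by
    have : α.im * ((a1 : ℝ) + 2 * a2 * α.re) = 0 := by linarith
    rcases mul_eq_zero.1 this with h4 | h4
    · exact absurd h4 h.nonreal
    · linarith
  refine ⟨h3, ?_⟩
  rw [Complex.normSq_apply]
  rw [h3] at h2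
  nlinarith

theorem IsBase.exists_p {α : ℂ} {a2 a1 a0 : ℤ} (h : IsBase α a2 a1 a0) :
    0 < a0 ∧ ∃ p : GaussianInt, (a0 : ℝ) ≤ Complex.normSq (p : ℂ) ∧
      (∀ (K : ℕ) (z z' : ℂ), z ∈ Lat α a2 a1 → z' ∈ Lat α a2 a1 → z = α ^ K * z' →
        ∃ β : GaussianInt, z = (p : ℂ) ^ K * (β : ℂ)) := by
  obtain ⟨h1, h2⟩ := h.sum_eq
  have hα : 1 < Complex.normSq α := by
    rw [Complex.normSq_eq_norm_sq]
    nlinarith [h.big]
  have ha2 : (0 : ℝ) < a2 := by exact_mod_cast h.pos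
  have ha0 : (0 : ℝ) < a0 := by rw [h2]; positivity
  have ha0' : 0 < a0 := by exact_mod_cast ha0
  obtain ⟨p, q, hpq, hq0, hαq⟩ := exists_pq h.gauss
  refine ⟨ha0', p, ?_, ?_⟩
  · -- norm bound
    have hq0' : (q : ℂ) ≠ 0 := fun h0 => hq0 (GaussianInt.toComplex_eq_zero.1 h0)
    have hnp : Complex.normSq (p : ℂ) = Complex.normSq α * Complex.normSq (q : ℂ) := by
      rw [← hαq, Complex.normSq_mul]
    have hnq : 0 < Complex.normSq (q : ℂ) := Complex.normSq_pos.2 hq0'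
    set t : ℝ := Complex.normSq (q : ℂ) / a2 with ht
    have ht0 : 0 < t := div_pos hnq ha2
    have e2 : t * a2 = Complex.normSq (q : ℂ) := by rw [ht]; field_simp
    have e0 : t * a0 = Complex.normSq (p : ℂ) := by
      rw [hnp, h2, ← e2]; ring
    have e1 : t * a1 = -2 * ((p : ℂ) * (starRingEnd ℂ) (q : ℂ)).re := by
      have : ((p : ℂ) * (starRingEnd ℂ) (q : ℂ)) = α * (Complex.normSq (q : ℂ) : ℂ) := by
        rw [← hαq, mul_assoc, Complex.mul_conj]
      rw [this, Complex.re_mul_ofReal, h1, ← e2]; ring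
    -- these are integers
    obtain ⟨n2, hn2⟩ : ∃ n : ℤ, Complex.normSq (q : ℂ) = n :=
      ⟨q.re * q.re + q.im * q.im, by rw [GaussianInt.toComplex_def₂, Complex.normSq_mk]; push_cast; ring⟩
    obtain ⟨n0, hn0⟩ : ∃ n : ℤ, Complex.normSq (p : ℂ) = n :=
      ⟨p.re * p.re + p.im * p.im, by rw [GaussianInt.toComplex_def₂, Complex.normSq_mk]; push_cast; ring⟩
    obtain ⟨n1, hn1⟩ : ∃ n : ℤ, -2 * ((p : ℂ) * (starRingEnd ℂ) (q : ℂ)).re = n := by
      refine ⟨-2 * (p.re * q.re + p.im * q.im), ?_⟩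
      rw [GaussianInt.toComplex_def₂, GaussianInt.toComplex_def₂, Complex.mul_re]
      simp only [Complex.conj_re, Complex.conj_im]
      push_cast
      ring
    have hbez : ∃ x y z : ℤ, x * a0 + y * a1 + z * a2 = 1 := by
      have g1 := Int.gcd_eq_gcd_ab (Int.gcd a0 a1) a2
      have g2 := Int.gcd_eq_gcd_ab a0 a1
      rw [h.coprime] at g1
      refine ⟨Int.gcdA a0 a1 * Int.gcdA (Int.gcd a0 a1) a2, Int.gcdB a0 a1 * Int.gcdA (Int.gcd a0 a1) a2,
        Int.gcdB (Int.gcd a0 a1) a2, ?_⟩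
      push_cast at g1
      linear_combination (-(Int.gcdA (Int.gcd a0 a1) a2)) * g2 - g1
    obtain ⟨x, y, z, hxyz⟩ := hbez
    have hxyzR : (x : ℝ) * a0 + y * a1 + z * a2 = 1 := by exact_mod_cast hxyz
    have htint : t = ((x * n0 + y * n1 + z * n2 : ℤ) : ℝ) := by
      push_cast
      rw [← hn0, ← hn1, ← hn2, ← e0, ← e1, ← e2]
      calc t = t * ((x : ℝ) * a0 + y * a1 + z * a2) := by rw [hxyzR, mul_one]
        _ = _ := by ring
    have ht1 : 1 ≤ t := by
      rw [htint] at ht0 ⊢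
      exact_mod_cast ht0
    rw [← e0]
    nlinarith
  · intro K z z' hz hz' hzz
    -- `q` divides `a2`
    have hroot : (a2 : GaussianInt) * p ^ 2 + a1 * p * q + a0 * q ^ 2 = 0 := by
      apply GaussianInt.toComplex_injective
      have : (a2 : ℂ) * (p : ℂ) ^ 2 + a1 * (p : ℂ) * (q : ℂ) + a0 * (q : ℂ) ^ 2 = 0 := by
        rw [← hαq]
        linear_combination (q : ℂ) ^ 2 * h.root
      simpa using this
    have hqa : q ∣ (a2 : GaussianInt) := by
      have h3 : q ∣ (a2 : GaussianInt) * p ^ 2 := by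
        refine ⟨-(a1 * p) - a0 * q, ?_⟩
        linear_combination hroot
      exact (hpq.symm.pow_right (n := 2)).dvd_of_dvd_mul_right h3
    obtain ⟨c, hc⟩ := hqa
    have hq0' : (q : ℂ) ≠ 0 := fun h0 => hq0 (GaussianInt.toComplex_eq_zero.1 h0)
    have hc' : (a2 : ℂ) = (q : ℂ) * (c : ℂ) := by
      have := congrArg GaussianInt.toComplex hc
      simpa using this
    have hint : ∀ z ∈ Lat α a2 a1, ∃ Z : GaussianInt, (Z : ℂ) = z := by
      rintro z ⟨m, n, rfl⟩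
      refine ⟨(a2 : GaussianInt) * m + (c * p + a1) * n, ?_⟩
      have h4 : (a2 : ℂ) * α = (c : ℂ) * (p : ℂ) := by
        rw [hc', ← hαq]; ring
      rw [h4]
      simp
    obtain ⟨Z, hZ⟩ := hint z hz
    obtain ⟨Z', hZ'⟩ := hint z' hz'
    have hrel : q ^ K * Z = p ^ K * Z' := by
      apply GaussianInt.toComplex_injective
      have : (q : ℂ) ^ K * z = (p : ℂ) ^ K * z' := by
        rw [hzz, ← hαq, mul_pow]; ring
      rw [← hZ, ← hZ'] at this
      simpa using this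
    have hdvd : p ^ K ∣ Z := by
      have h5 : p ^ K ∣ q ^ K * Z := ⟨Z', hrel⟩
      exact (hpq.pow (m := K) (n := K)).dvd_of_dvd_mul_left h5
    obtain ⟨β, hβ⟩ := hdvd
    refine ⟨β, ?_⟩
    rw [← hZ, hβ]
    simp

end Pool.Agent.Q48.GB
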