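import Mathlib

set_option autoImplicit false

/-! Counting words in which the number of occurrences of a given word is far from its mean. -/

namespace Pool.Agent.Q48.GB

open Finset

variable {b K : ℕ}

/-- number of words with prescribed letters at the places of `T` -/
lemma card_agree (T : Finset (Fin K)) (u : Fin K → Fin b) :
    ((Finset.univ : Finset (Fin K → Fin b)).filter (fun v => ∀ t ∈ T, v t = u t)).card =
      b ^ (K - T.card) := by
  classical
  have h1 : (Finset.univ : Finset (Fin K → Fin b)).filter (fun v => ∀ t ∈ T, v t = u t) =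
      Fintype.piFinset (fun t => if t ∈ T then {u t} else Finset.univ) := by
    ext v
    simp only [Finset.mem_filter, Finset.mem_univ, true_and, Fintype.mem_piFinset]
    constructor
    · intro h t
      split_ifs with ht
      · rw [Finset.mem_singleton]; exact h t ht
      · exact Finset.mem_univ _
    · intro h t ht
      have := h t
      rw [if_pos ht, Finset.mem_singleton] at this
      exact this
  rw [h1, Fintype.card_piFinset]
  have h2 : ∀ t : Fin K, (if t ∈ T then ({u t} : Finset (Fin b)) else Finset.univ).card =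
      if t ∈ T then 1 else b := by
    intro t
    split_ifs <;> simp
  rw [Finset.prod_congr rfl (fun t _ => h2 t), Finset.prod_ite, Finset.prod_const_one, one_mul,
    Finset.prod_const]
  congr 1
  rw [Finset.filter_not, Finset.card_sdiff_of_subset (Finset.filter_subset _ _)]
  simp

variable {ℓ : ℕ}

/-- the places of a block -/
def blk (i : ℕ) (_ : i + ℓ ≤ K) : Finset (Fin K) :=
  (Finset.univ : Finset (Fin K)).filter (fun t => i ≤ (t : ℕ) ∧ (t : ℕ) < i + ℓ)

lemma mem_blk {i : ℕ} {h : i + ℓ ≤ K} {t : Fin K} :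
    t ∈ blk (ℓ := ℓ) i h ↔ i ≤ (t : ℕ) ∧ (t : ℕ) < i + ℓ := by
  unfold blk
  simp

lemma card_blk (i : ℕ) (h : i + ℓ ≤ K) : (blk (ℓ := ℓ) i h).card = ℓ := by
  have h1 : (blk (ℓ := ℓ) i h).map Fin.valEmbedding = Finset.Ico i (i + ℓ) := by
    ext x
    rw [Finset.mem_map, Finset.mem_Ico]
    constructor
    · rintro ⟨t, ht, rfl⟩
      rw [mem_blk] at ht
      exact ht
    · intro hx
      exact ⟨⟨x, by omega⟩, mem_blk.2 hx, rfl⟩
  rw [← Finset.card_map Fin.valEmbedding, h1, Nat.card_Ico]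
  omega

/-- occurrence of the word `w` at the place `i` -/
def Oc (w : Fin ℓ → Fin b) (v : Fin K → Fin b) (i : ℕ) : Prop :=
  ∀ j : Fin ℓ, ∀ h : i + j < K, v ⟨i + j, h⟩ = w j

/-- the letters prescribed by an occurrence at `i` -/
def pres (w : Fin ℓ → Fin b) (z : Fin K → Fin b) (i : ℕ) (t : Fin K) : Fin b :=
  if h : i ≤ t ∧ (t : ℕ) < i + ℓ then w ⟨t - i, by omega⟩ else z t

lemma oc_iff (w : Fin ℓ → Fin b) (v z : Fin K → Fin b) (i : ℕ) (h : i + ℓ ≤ K) :
    Oc w v i ↔ ∀ t ∈ blk (ℓ := ℓ) i h, v t = pres w z i t := by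
  constructor
  · intro ho t ht
    rw [mem_blk] at ht
    unfold pres
    rw [dif_pos ht]
    have := ho ⟨t - i, by omega⟩ (by simp; omega)
    rw [← this]
    congr 1
    apply Fin.ext
    simp; omega
  · intro ho j hj
    have h1 := ho ⟨i + j, hj⟩ (by rw [mem_blk]; exact ⟨by simp, by simp⟩)
    rw [h1]
    unfold pres
    rw [dif_pos ⟨by simp, by simp⟩]
    congr 1
    apply Fin.ext
    simp

open Classical in
/-- indicator of an occurrence minus the probability -/
noncomputable def ff (w : Fin ℓ → Fin b) (i : ℕ) (v : Fin K → Fin b) : ℝ :=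
  (if Oc w v i then 1 else 0) - ((b : ℝ) ^ ℓ)⁻¹

lemma sum_one (w : Fin ℓ → Fin b) (z : Fin K → Fin b) (i : ℕ) (h : i + ℓ ≤ K) (hb : 0 < b) :
    ∑ v : Fin K → Fin b, (open Classical in if Oc w v i then (1 : ℝ) else 0) =
      (b : ℝ) ^ K * ((b : ℝ) ^ ℓ)⁻¹ := by
  classical
  have hb0 : (b : ℝ) ≠ 0 := by exact_mod_cast hb.ne'
  rw [Finset.sum_boole]
  have h1 : (Finset.univ.filter (fun v : Fin K → Fin b => Oc w v i)) =
      Finset.univ.filter (fun v : Fin K → Fin b => ∀ t ∈ blk (ℓ := ℓ) i h, v t = pres w z i t) := by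
    ext v
    simp only [Finset.mem_filter, Finset.mem_univ, true_and]
    exact oc_iff w v z i h
  rw [h1, card_agree, card_blk]
  push_cast
  rw [← div_eq_mul_inv, eq_div_iff (pow_ne_zero _ hb0), ← pow_add]
  congr 1
  omega

lemma sum_two (w : Fin ℓ → Fin b) (z : Fin K → Fin b) (i j : ℕ) (hij : i + ℓ ≤ j) (h : j + ℓ ≤ K)
    (hb : 0 < b) :
    ∑ v : Fin K → Fin b, (open Classical in if Oc w v i ∧ Oc w v j then (1 : ℝ) else 0) =
      (b : ℝ) ^ K * ((b : ℝ) ^ ℓ)⁻¹ * ((b : ℝ) ^ ℓ)⁻¹ := by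
  classical
  have hb0 : (b : ℝ) ≠ 0 := by exact_mod_cast hb.ne'
  have hi : i + ℓ ≤ K := by omega
  rw [Finset.sum_boole]
  have h1 : (Finset.univ.filter (fun v : Fin K → Fin b => Oc w v i ∧ Oc w v j)) =
      Finset.univ.filter (fun v : Fin K → Fin b => ∀ t ∈ blk (ℓ := ℓ) i hi ∪ blk (ℓ := ℓ) j h,
        v t = pres w (pres w z j) i t) := by
    ext v
    simp only [Finset.mem_filter, Finset.mem_univ, true_and]
    rw [oc_iff w v (pres w z j) i hi, oc_iff w v z j h]
    constructor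
    · rintro ⟨h2, h3⟩ t ht
      rw [Finset.mem_union] at ht
      rcases ht with ht | ht
      · exact h2 t ht
      · rw [h3 t ht]
        unfold pres
        rw [mem_blk] at ht
        rw [dif_pos ht, dif_neg (by omega)]
    · intro h2
      refine ⟨fun t ht => h2 t (Finset.mem_union_left _ ht), fun t ht => ?_⟩
      rw [h2 t (Finset.mem_union_right _ ht)]
      unfold pres
      rw [mem_blk] at ht
      rw [dif_neg (by omega), dif_pos ht]
  have hdisj : Disjoint (blk (K := K) (ℓ := ℓ) i hi) (blk (ℓ := ℓ) j h) := by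
    rw [Finset.disjoint_left]
    intro t ht ht'
    rw [mem_blk] at ht ht'
    omega
  rw [h1, card_agree, Finset.card_union_of_disjoint hdisj, card_blk, card_blk]
  push_cast
  have h2 : (b : ℝ) ^ K = (b : ℝ) ^ (K - (ℓ + ℓ)) * (b : ℝ) ^ ℓ * (b : ℝ) ^ ℓ := by
    rw [← pow_add, ← pow_add]; congr 1; omega
  rw [h2]
  field_simp

lemma ff_abs (w : Fin ℓ → Fin b) (i : ℕ) (v : Fin K → Fin b) (hb : 0 < b) : |ff w i v| ≤ 1 := by
  have hb1 : (1 : ℝ) ≤ b := by exact_mod_cast hb
  have h1 : (0 : ℝ) ≤ ((b : ℝ) ^ ℓ)⁻¹ := by positivity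
  have h2 : ((b : ℝ) ^ ℓ)⁻¹ ≤ 1 := inv_le_one_of_one_le₀ (one_le_pow₀ hb1)
  unfold ff
  split_ifs <;> rw [abs_le] <;> constructor <;> linarith

lemma sum_ff_disj (w : Fin ℓ → Fin b) (z : Fin K → Fin b) (i j : ℕ) (hij : i + ℓ ≤ j)
    (h : j + ℓ ≤ K) (hb : 0 < b) : ∑ v : Fin K → Fin b, ff w i v * ff w j v = 0 := by
  classical
  have hb0 : (b : ℝ) ≠ 0 := by exact_mod_cast hb.ne'
  set p : ℝ := ((b : ℝ) ^ ℓ)⁻¹ with hp
  have e : ∀ v : Fin K → Fin b, ff w i v * ff w j v =
      (if Oc w v i ∧ Oc w v j then (1 : ℝ) else 0) - p * (if Oc w v i then (1 : ℝ) else 0) -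
        p * (if Oc w v j then (1 : ℝ) else 0) + p * p := by
    intro v
    unfold ff
    rw [← hp]
    by_cases h1 : Oc w v i <;> by_cases h2 : Oc w v j <;> simp [h1, h2] <;> ring
  rw [Finset.sum_congr rfl (fun v _ => e v), Finset.sum_add_distrib, Finset.sum_sub_distrib,
    Finset.sum_sub_distrib, ← Finset.mul_sum, ← Finset.mul_sum, sum_two w z i j hij h hb,
    sum_one w z i (by omega) hb, sum_one w z j h hb, Finset.sum_const, Finset.card_univ,
    Fintype.card_fun, Fintype.card_fin, Fintype.card_fin, nsmul_eq_mul, ← hp]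
  push_cast
  ring

/-- the deviation -/
noncomputable def ZZ (w : Fin ℓ → Fin b) (v : Fin K → Fin b) : ℝ :=
  ∑ i ∈ range (K + 1 - ℓ), ff w i v

theorem second_moment (w : Fin ℓ → Fin b) (hb : 0 < b) :
    ∑ v : Fin K → Fin b, ZZ w v ^ 2 ≤ 2 * ℓ * K * (b : ℝ) ^ K + (if ℓ = 0 then 1 else 0) := by
  classical
  rcases Nat.eq_zero_or_pos ℓ with h0 | hℓ
  · subst h0
    have : ∀ v : Fin K → Fin b, ZZ w v = 0 := by
      intro v
      unfold ZZ
      apply Finset.sum_eq_zero
      intro i _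
      unfold ff
      rw [if_pos (show Oc w v i from fun j => Fin.elim0 j)]
      simp
    simp [this]
  rw [if_neg (by omega), add_zero]
  obtain ⟨z⟩ : Nonempty (Fin K → Fin b) := ⟨fun _ => ⟨0, hb⟩⟩
  have e1 : ∑ v : Fin K → Fin b, ZZ w v ^ 2 =
      ∑ i ∈ range (K + 1 - ℓ), ∑ j ∈ range (K + 1 - ℓ), ∑ v : Fin K → Fin b, ff w i v * ff w j v := by
    simp only [ZZ, sq, Finset.sum_mul_sum]
    rw [Finset.sum_comm]
    apply Finset.sum_congr rfl
    intro i _
    rw [Finset.sum_comm]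
  rw [e1]
  have h1 : ∀ i ∈ range (K + 1 - ℓ), ∑ j ∈ range (K + 1 - ℓ),
      ∑ v : Fin K → Fin b, ff w i v * ff w j v ≤ 2 * ℓ * (b : ℝ) ^ K := by
    intro i hi
    rw [Finset.mem_range] at hi
    calc ∑ j ∈ range (K + 1 - ℓ), ∑ v : Fin K → Fin b, ff w i v * ff w j v
        ≤ ∑ j ∈ range (K + 1 - ℓ), (if i < j + ℓ ∧ j < i + ℓ then (b : ℝ) ^ K else 0) := by
          apply Finset.sum_le_sum
          intro j hj
          rw [Finset.mem_range] at hj
          split_ifs with hc
          · calc ∑ v : Fin K → Fin b, ff w i v * ff w j v ≤ ∑ v : Fin K → Fin b, (1 : ℝ) := by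
                  apply Finset.sum_le_sum
                  intro v _
                  have h2 := ff_abs w i v hb
                  have h3 := ff_abs w j v hb
                  calc ff w i v * ff w j v ≤ |ff w i v * ff w j v| := le_abs_self _
                    _ = |ff w i v| * |ff w j v| := abs_mul _ _
                    _ ≤ 1 * 1 := mul_le_mul h2 h3 (abs_nonneg _) zero_le_one
                    _ = 1 := one_mul 1
              _ = (b : ℝ) ^ K := by simp
          · push Not at hc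
            rcases Nat.lt_or_ge i (j + ℓ) with h2 | h2
            · rw [sum_ff_disj w z i j (hc h2) (by omega) hb]
            · rw [Finset.sum_congr rfl (fun v _ => mul_comm _ _),
                sum_ff_disj w z j i h2 (by omega) hb]
      _ = ((range (K + 1 - ℓ)).filter (fun j => i < j + ℓ ∧ j < i + ℓ)).card * (b : ℝ) ^ K := by
          rw [← Finset.sum_filter, Finset.sum_const, nsmul_eq_mul]
      _ ≤ 2 * ℓ * (b : ℝ) ^ K := by
          apply mul_le_mul_of_nonneg_right _ (by positivity)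
          have h2 : ((range (K + 1 - ℓ)).filter (fun j => i < j + ℓ ∧ j < i + ℓ)) ⊆
              Finset.Ico (i + 1 - ℓ) (i + ℓ) := by
            intro j hj
            rw [Finset.mem_filter] at hj
            rw [Finset.mem_Ico]
            omega
          have h3 := Finset.card_le_card h2
          rw [Nat.card_Ico] at h3
          have h4 : i + ℓ - (i + 1 - ℓ) ≤ 2 * ℓ := by omega
          exact_mod_cast h3.trans h4
  calc ∑ i ∈ range (K + 1 - ℓ), ∑ j ∈ range (K + 1 - ℓ), ∑ v : Fin K → Fin b, ff w i v * ff w j v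
      ≤ ∑ i ∈ range (K + 1 - ℓ), 2 * ℓ * (b : ℝ) ^ K := Finset.sum_le_sum h1
    _ = ((K + 1 - ℓ : ℕ) : ℝ) * (2 * ℓ * (b : ℝ) ^ K) := by
        rw [Finset.sum_const, Finset.card_range, nsmul_eq_mul]
    _ ≤ (K : ℝ) * (2 * ℓ * (b : ℝ) ^ K) := by
        apply mul_le_mul_of_nonneg_right _ (by positivity)
        exact_mod_cast (by omega : K + 1 - ℓ ≤ K)
    _ = 2 * ℓ * K * (b : ℝ) ^ K := by ring

/-- words with a large deviation are rare -/
theorem card_bad (w : Fin ℓ → Fin b) (hb : 0 < b) (hℓ : 1 ≤ ℓ) (δ : ℝ) (hδ : 0 < δ) :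
    (((Finset.univ : Finset (Fin K → Fin b)).filter (fun v => δ * K < |ZZ w v|)).card : ℝ) * K ≤
      2 * ℓ / δ ^ 2 * (b : ℝ) ^ K := by
  classical
  rcases Nat.eq_zero_or_pos K with h0 | hK
  · subst h0
    simp only [Nat.cast_zero, mul_zero]
    positivity
  have hK0 : (0 : ℝ) < K := by exact_mod_cast hK
  have h1 := second_moment (K := K) w hb
  rw [if_neg (by omega), add_zero] at h1
  set S := (Finset.univ : Finset (Fin K → Fin b)).filter (fun v => δ * K < |ZZ w v|) with hS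
  have h2 : (S.card : ℝ) * (δ * K) ^ 2 ≤ ∑ v : Fin K → Fin b, ZZ w v ^ 2 := by
    calc (S.card : ℝ) * (δ * K) ^ 2 = ∑ v ∈ S, (δ * K) ^ 2 := by
          rw [Finset.sum_const, nsmul_eq_mul]
      _ ≤ ∑ v ∈ S, ZZ w v ^ 2 := by
          apply Finset.sum_le_sum
          intro v hv
          rw [hS, Finset.mem_filter] at hv
          rw [← sq_abs (ZZ w v)]
          exact pow_le_pow_left₀ (by positivity) hv.2.le 2
      _ ≤ ∑ v : Fin K → Fin b, ZZ w v ^ 2 :=
          Finset.sum_le_sum_of_subset_of_nonneg (Finset.subset_univ _) (fun v _ _ => sq_nonneg _)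
  have h3 : (S.card : ℝ) * (δ * K) ^ 2 ≤ 2 * ℓ * K * (b : ℝ) ^ K := h2.trans h1
  have h4 : (S.card : ℝ) * K * (δ ^ 2 * K) ≤ 2 * ℓ / δ ^ 2 * (b : ℝ) ^ K * (δ ^ 2 * K) := by
    have e : 2 * ℓ / δ ^ 2 * (b : ℝ) ^ K * (δ ^ 2 * K) = 2 * ℓ * K * (b : ℝ) ^ K := by
      field_simp
    rw [e]
    calc (S.card : ℝ) * K * (δ ^ 2 * K) = (S.card : ℝ) * (δ * K) ^ 2 := by ring
      _ ≤ _ := h3
  exact le_of_mul_le_mul_right h4 (by positivity)

end Pool.Agent.Q48.GB
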