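import Mathlib
import Pool.Agent.Q48.GB.Alg
import Pool.Agent.Q48.GB.Words

set_option autoImplicit false

/-! Prefixes of expansions. -/

namespace Pool.Agent.Q48.GB

open Complex Finset

/-- the value of the prefix `e 0, …, e t` -/
noncomputable def PP (α : ℂ) (e : ℕ → ℕ) : ℕ → ℂ
  | 0 => e 0
  | (t + 1) => α * PP α e t + e (t + 1)

lemma PP_sum (α : ℂ) (e : ℕ → ℕ) (t : ℕ) :
    PP α e t = ∑ s ∈ range (t + 1), (e s : ℂ) * α ^ (t - s) := by
  induction t with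
  | zero => simp [PP]
  | succ t ih =>
    rw [PP, ih, Finset.sum_range_succ _ (t + 1), Nat.sub_self, pow_zero, mul_one, Finset.mul_sum]
    congr 1
    apply Finset.sum_congr rfl
    intro s hs
    rw [Finset.mem_range] at hs
    rw [show t + 1 - s = (t - s) + 1 by omega, pow_succ]
    ring

lemma PP_agree (α : ℂ) (e e' : ℕ → ℕ) (t K : ℕ) (hK : K ≤ t)
    (h : ∀ s, t - K < s → s ≤ t → e s = e' s) :
    PP α e t - PP α e' t = α ^ K * (PP α e (t - K) - PP α e' (t - K)) := by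
  induction K with
  | zero => simp
  | succ K ih =>
    rw [ih (by omega) (fun s h1 h2 => h s (by omega) h2)]
    obtain ⟨u, hu⟩ : ∃ u, t - K = u + 1 := ⟨t - K - 1, by omega⟩
    have hu' : t - (K + 1) = u := by omega
    rw [hu, hu', PP, PP, h (u + 1) (by omega) (by omega), pow_succ]
    ring

/-- the tail of an expansion is small -/
lemma tail_bound {α : ℂ} (hα : 1 < ‖α‖) {b : ℕ} {e : ℕ → ℕ} (he : ∀ s, e s < b) {k : ℤ} {x : ℂ}
    (hx : HasSum (fun s : ℕ => (e s : ℂ) * α ^ (k - s)) x) (t : ℕ) :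
    ‖x - α ^ (k - t) * PP α e t‖ ≤ b / (‖α‖ - 1) * ‖α‖ ^ (k - t) := by
  have hα0 : α ≠ 0 := by
    intro h; rw [h, norm_zero] at hα; linarith
  have hn0 : 0 < ‖α‖ := by linarith
  set f : ℕ → ℂ := fun s => (e s : ℂ) * α ^ (k - s) with hf
  have h1 : ∑ s ∈ range (t + 1), f s = α ^ (k - t) * PP α e t := by
    rw [PP_sum, Finset.mul_sum]
    apply Finset.sum_congr rfl
    intro s hs
    rw [Finset.mem_range] at hs
    rw [hf]
    simp only
    have h2 : α ^ (k - s) = α ^ (k - t) * α ^ (t - s) := by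
      rw [← zpow_natCast, ← zpow_add₀ hα0]
      congr 1
      rw [Nat.cast_sub (by omega)]
      ring
    rw [h2]; ring
  have h2 : HasSum (fun s => f (s + (t + 1))) (x - α ^ (k - t) * PP α e t) := by
    rw [← h1]
    exact (hasSum_nat_add_iff' (t + 1)).2 hx
  have hr : ‖α‖⁻¹ < 1 := inv_lt_one_of_one_lt₀ hα
  have hr0 : 0 ≤ ‖α‖⁻¹ := by positivity
  have h3 : HasSum (fun s : ℕ => (b : ℝ) * ‖α‖ ^ (k - t - 1) * ‖α‖⁻¹ ^ s)
      ((b : ℝ) * ‖α‖ ^ (k - t - 1) * (1 - ‖α‖⁻¹)⁻¹) :=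
    (hasSum_geometric_of_lt_one hr0 hr).mul_left _
  have h4 : ∀ s, ‖f (s + (t + 1))‖ ≤ (b : ℝ) * ‖α‖ ^ (k - t - 1) * ‖α‖⁻¹ ^ s := by
    intro s
    rw [hf]
    simp only
    rw [norm_mul, norm_zpow, Complex.norm_natCast]
    have h5 : ‖α‖ ^ (k - ((s + (t + 1) : ℕ) : ℤ)) = ‖α‖ ^ (k - t - 1) * ‖α‖⁻¹ ^ s := by
      rw [inv_pow, ← zpow_natCast, ← zpow_neg, ← zpow_add₀ hn0.ne']
      congr 1
      push_cast
      ring
    rw [h5, mul_assoc]
    apply mul_le_mul_of_nonneg_right _ (by positivity)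
    exact_mod_cast (he _).le
  have h5 := h2.norm_le_of_bounded h3 h4
  refine h5.trans (le_of_eq ?_)
  have h6 : ‖α‖ ^ (k - (t : ℤ)) = ‖α‖ ^ (k - t - 1) * ‖α‖ := by
    rw [← zpow_add_one₀ hn0.ne']; congr 1; ring
  rw [h6]
  have h7 : ‖α‖ - 1 ≠ 0 := by linarith
  have h8 : 1 - ‖α‖⁻¹ = (‖α‖ - 1) / ‖α‖ := by field_simp
  rw [h8, inv_div]
  field_simp

end Pool.Agent.Q48.GB
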