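import Mathlib
import Pool.Agent.Q48.GB.Prefix

set_option autoImplicit false

/-! The set of points whose expansion has a bad window is small. -/

namespace Pool.Agent.Q48.GB

open Complex Finset MeasureTheory
open scoped ENNReal

/-- `e` is the digit sequence of an expansion of `x` with leading index `k` -/
structure IsExp (α : ℂ) (a2 a1 : ℤ) (b : ℕ) (k : ℤ) (x : ℂ) (e : ℕ → ℕ) : Prop where
  dig : ∀ s, e s < b
  lat : ∀ t, PP α e t ∈ Lat α a2 a1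
  sum : HasSum (fun s : ℕ => (e s : ℂ) * α ^ (k - s)) x

/-- the last `K` digits of the prefix of length `n` -/
def wd {b : ℕ} (hb : 0 < b) (e : ℕ → ℕ) (n K : ℕ) : Fin K → Fin b :=
  fun i => ⟨e (n - K + i) % b, Nat.mod_lt _ hb⟩

/-- the set of points of norm `≤ R` with an expansion whose last digits are bad -/
def Ebad (α : ℂ) (a2 a1 : ℤ) {b : ℕ} (hb : 0 < b) (k : ℤ) (R : ℝ) (n K : ℕ)
    (Bad : Finset (Fin K → Fin b)) : Set ℂ :=
  {x | ‖x‖ ≤ R ∧ ∃ e : ℕ → ℕ, IsExp α a2 a1 b k x e ∧ wd hb e n K ∈ Bad}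

theorem Ebad_measure {α : ℂ} {a2 a1 a0 : ℤ} (h : IsBase α a2 a1 a0) {b : ℕ} (hb : 0 < b)
    (hba : (b : ℤ) = a0) (k : ℤ) (R : ℝ) (hR : 0 ≤ R) :
    ∃ g : ℕ, 2 ≤ g ∧ ∀ g' : ℕ, g ≤ g' → ∃ A : ℝ, 0 < A ∧
      ∀ (n K : ℕ) (_ : 1 ≤ n) (_ : K * g' ≤ n) (Bad : Finset (Fin K → Fin b)),
      volume (Ebad α a2 a1 hb k R n K Bad) ≤ ENNReal.ofReal (A * (Bad.card / (b : ℝ) ^ K)) := by
  classical
  obtain ⟨ha0, p, hpn, hp⟩ := h.exists_p
  have hα := h.big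
  have hn0 : 0 < ‖α‖ := by linarith
  have hα0 : α ≠ 0 := norm_pos_iff.1 hn0
  have hpn' : (b : ℝ) ≤ ‖(p : ℂ)‖ ^ 2 := by
    rw [Complex.normSq_eq_norm_sq] at hpn
    have : (b : ℝ) = (a0 : ℝ) := by exact_mod_cast hba
    rw [this]; exact hpn
  have hb1 : (1 : ℝ) ≤ b := by exact_mod_cast hb
  have hp0 : 0 < ‖(p : ℂ)‖ := by
    rw [norm_pos_iff]
    intro h0
    rw [h0, norm_zero] at hpn'
    norm_num at hpn'
    linarith
  have hp1 : 1 ≤ ‖(p : ℂ)‖ := by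
    by_contra hc
    push Not at hc
    nlinarith
  obtain ⟨g0, hg0'⟩ := pow_unbounded_of_one_lt ‖(p : ℂ)‖ hα
  have hg0 := hg0'.le
  refine ⟨max 2 g0, le_max_left _ _, fun g hg => ?_⟩
  have hg2 : 2 ≤ g := (le_max_left _ _).trans hg
  have hgg : ‖(p : ℂ)‖ ≤ ‖α‖ ^ g :=
    hg0.trans (pow_le_pow_right₀ hα.le ((le_max_right _ _).trans hg))
  set C : ℝ := b / (‖α‖ - 1) with hC
  have hC0 : 0 < C := div_pos (by linarith) (by linarith)
  set A1 : ℝ := 4 * (‖α‖ ^ (-1 - k) * R) + 4 * C + 1 with hA1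
  have hz : 0 < ‖α‖ ^ (-1 - k) := zpow_pos hn0 _
  have hA10 : 0 < A1 := by positivity
  set A : ℝ := Real.pi * C ^ 2 * A1 ^ 2 * (‖α‖ ^ (k + 1)) ^ 2 with hA
  have hA0 : 0 < A := by positivity
  refine ⟨A, hA0, fun n K hn hK Bad => ?_⟩
  obtain ⟨t, rfl⟩ : ∃ t, n = t + 1 := ⟨n - 1, by omega⟩
  have hKt : K ≤ t := by
    have h2 : K * 2 ≤ K * g := Nat.mul_le_mul_left _ hg2
    omega
  -- sizes
  set X : ℝ := ‖α‖ ^ ((t : ℤ) - k) * R + C with hX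
  have hX0 : 0 ≤ X := by positivity
  have hpre : ∀ x e, ‖x‖ ≤ R → IsExp α a2 a1 b k x e → ‖PP α e t‖ ≤ X := by
    intro x e hx he
    have h1 := tail_bound hα he.dig he.sum t
    have h2 : ‖α‖ ^ ((t : ℤ) - k) * ‖α‖ ^ (k - t) = 1 := by
      rw [← zpow_add₀ hn0.ne']; simp
    have h3 : PP α e t = α ^ ((t : ℤ) - k) * x - α ^ ((t : ℤ) - k) * (x - α ^ (k - t) * PP α e t) := by
      have h4 : α ^ ((t : ℤ) - k) * α ^ (k - t) = 1 := by
        rw [← zpow_add₀ hα0]; simp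
      linear_combination (-(PP α e t)) * h4
    rw [h3]
    calc ‖α ^ ((t : ℤ) - k) * x - α ^ ((t : ℤ) - k) * (x - α ^ (k - t) * PP α e t)‖
        ≤ ‖α ^ ((t : ℤ) - k) * x‖ + ‖α ^ ((t : ℤ) - k) * (x - α ^ (k - t) * PP α e t)‖ := norm_sub_le _ _
      _ = ‖α‖ ^ ((t : ℤ) - k) * ‖x‖ + ‖α‖ ^ ((t : ℤ) - k) * ‖x - α ^ (k - t) * PP α e t‖ := by
          rw [norm_mul, norm_mul, norm_zpow]
      _ ≤ ‖α‖ ^ ((t : ℤ) - k) * R + ‖α‖ ^ ((t : ℤ) - k) * (C * ‖α‖ ^ (k - t)) := by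
          apply add_le_add
          · exact mul_le_mul_of_nonneg_left hx (by positivity)
          · exact mul_le_mul_of_nonneg_left h1 (by positivity)
      _ = X := by
          rw [hX]
          linear_combination C * h2
  set Y : ℝ := 2 * X / ‖(p : ℂ)‖ ^ K with hY
  have hY0 : 0 ≤ Y := by positivity
  set m : ℤ := ⌊Y⌋ with hm
  have hm0 : 0 ≤ m := Int.floor_nonneg.2 hY0
  -- chosen prefixes
  have hchoose : ∀ v : Fin K → Fin b, ∃ P0 : ℂ, ∀ x e, ‖x‖ ≤ R → IsExp α a2 a1 b k x e →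
      wd hb e (t + 1) K = v → ∃ u ∈ (Finset.Icc (-m) m) ×ˢ (Finset.Icc (-m) m),
        PP α e t = P0 + (p : ℂ) ^ K * (u.1 + u.2 * Complex.I) := by
    intro v
    by_cases hv : ∃ x e, ‖x‖ ≤ R ∧ IsExp α a2 a1 b k x e ∧ wd hb e (t + 1) K = v
    · obtain ⟨x0, e0, hx0, he0, hv0⟩ := hv
      refine ⟨PP α e0 t, fun x e hx he hw => ?_⟩
      have h1 := PP_agree α e e0 t K hKt (by
        intro s h1 h2
        have h3 := congrFun (hw.trans hv0.symm) ⟨s - (t + 1 - K), by omega⟩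
        have h4 := congrArg Fin.val h3
        simp only [wd] at h4
        rw [show t + 1 - K + (s - (t + 1 - K)) = s by omega, Nat.mod_eq_of_lt (he.dig _),
          Nat.mod_eq_of_lt (he0.dig _)] at h4
        exact h4)
      obtain ⟨β, hβ⟩ := hp K _ _ (Lat_sub (he.lat t) (he0.lat t))
        (Lat_sub (he.lat (t - K)) (he0.lat (t - K))) h1
      have h2 : ‖(β : ℂ)‖ ≤ Y := by
        rw [hY, le_div_iff₀ (by positivity)]
        calc ‖(β : ℂ)‖ * ‖(p : ℂ)‖ ^ K = ‖(p : ℂ) ^ K * (β : ℂ)‖ := by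
              rw [norm_mul, norm_pow]; ring
          _ = ‖PP α e t - PP α e0 t‖ := by rw [hβ]
          _ ≤ ‖PP α e t‖ + ‖PP α e0 t‖ := norm_sub_le _ _
          _ ≤ X + X := add_le_add (hpre x e hx he) (hpre x0 e0 hx0 he0)
          _ = 2 * X := by ring
      have hre : |(β.re : ℝ)| ≤ Y := by
        rw [GaussianInt.intCast_re]
        exact (Complex.abs_re_le_norm _).trans h2
      have him : |(β.im : ℝ)| ≤ Y := by
        rw [GaussianInt.intCast_im]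
        exact (Complex.abs_im_le_norm _).trans h2
      have hbd : ∀ z : ℤ, |(z : ℝ)| ≤ Y → z ∈ Finset.Icc (-m) m := by
        intro z hz
        rw [abs_le] at hz
        rw [Finset.mem_Icc]
        constructor
        · have : -z ≤ m := by rw [hm, Int.le_floor]; push_cast; linarith
          omega
        · rw [hm, Int.le_floor]; exact hz.2
      refine ⟨(β.re, β.im), Finset.mem_product.2 ⟨hbd _ hre, hbd _ him⟩, ?_⟩
      have h3 : PP α e t = PP α e0 t + (p : ℂ) ^ K * (β : ℂ) := by rw [← hβ]; ring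
      rw [h3, GaussianInt.toComplex_def β]
    · refine ⟨0, fun x e hx he hw => absurd ⟨x, e, hx, he, hw⟩ hv⟩
  choose P0 hP0 using hchoose
  set box := (Finset.Icc (-m) m) ×ˢ (Finset.Icc (-m) m) with hbox
  set r : ℝ := C * ‖α‖ ^ (k - t) with hr
  have hr0 : 0 < r := mul_pos hC0 (zpow_pos hn0 _)
  have hcover : Ebad α a2 a1 hb k R (t + 1) K Bad ⊆
      ⋃ vu ∈ Bad ×ˢ box, Metric.closedBall
        (α ^ (k - t) * (P0 vu.1 + (p : ℂ) ^ K * (vu.2.1 + vu.2.2 * Complex.I))) r := by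
    rintro x ⟨hx, e, he, hw⟩
    obtain ⟨u, hu, hPu⟩ := hP0 _ x e hx he rfl
    simp only [Set.mem_iUnion]
    refine ⟨(_, u), Finset.mem_product.2 ⟨hw, hu⟩, ?_⟩
    rw [Metric.mem_closedBall, dist_eq_norm]
    have h1 := tail_bound hα he.dig he.sum t
    rw [hPu] at h1
    exact h1
  have hvol : volume (Ebad α a2 a1 hb k R (t + 1) K Bad) ≤
      ∑ vu ∈ Bad ×ˢ box, ENNReal.ofReal (r ^ 2 * Real.pi) := by
    refine (measure_mono hcover).trans ((measure_biUnion_finset_le _ _).trans (le_of_eq ?_))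
    apply Finset.sum_congr rfl
    intro vu _
    have e7 : ENNReal.ofReal (r ^ 2 * Real.pi) = ENNReal.ofReal r ^ 2 * NNReal.pi := by
      have h1 : (0 : ℝ) ≤ r ^ 2 := by positivity
      rw [ENNReal.ofReal_mul h1, ENNReal.ofReal_pow hr0.le]
      congr 1
      exact ENNReal.ofReal_coe_nnreal (p := NNReal.pi)
    rw [e7, Complex.volume_closedBall]
  refine hvol.trans ?_
  rw [Finset.sum_const, nsmul_eq_mul, Finset.card_product]
  have hboxc : (box.card : ℝ) = (2 * (m : ℝ) + 1) ^ 2 := by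
    rw [hbox, Finset.card_product, Int.card_Icc]
    have : ((m + 1 - -m).toNat : ℝ) = 2 * (m : ℝ) + 1 := by
      have h1 : ((m + 1 - -m).toNat : ℤ) = m + 1 - -m := Int.toNat_of_nonneg (by omega)
      have h2 : ((m + 1 - -m).toNat : ℝ) = (((m + 1 - -m).toNat : ℤ) : ℝ) := by push_cast; rfl
      rw [h2, h1]; push_cast; ring
    push_cast
    rw [this]; ring
  have hnat : (((Bad.card * box.card : ℕ) : ℕ) : ℝ≥0∞) = ENNReal.ofReal ((Bad.card : ℝ) * box.card) := by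
    rw [← ENNReal.ofReal_natCast]
    push_cast
    rfl
  rw [hnat, ← ENNReal.ofReal_mul (by positivity)]
  apply ENNReal.ofReal_le_ofReal
  -- the real inequality
  have hmY : (m : ℝ) ≤ Y := Int.floor_le _
  have hmR : (0 : ℝ) ≤ m := by exact_mod_cast hm0
  have hbox2 : (box.card : ℝ) ≤ (2 * Y + 1) ^ 2 := by
    rw [hboxc]
    exact pow_le_pow_left₀ (by positivity) (by linarith) 2
  -- 2 Y + 1 ≤ A1 * (‖α‖^(t+1) / ‖p‖^K)
  set q : ℝ := ‖α‖ ^ (t + 1) / ‖(p : ℂ)‖ ^ K with hq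
  have hpK : ‖(p : ℂ)‖ ^ K ≤ ‖α‖ ^ (t + 1) := by
    calc ‖(p : ℂ)‖ ^ K ≤ (‖α‖ ^ g) ^ K := pow_le_pow_left₀ hp0.le hgg K
      _ = ‖α‖ ^ (g * K) := by rw [← pow_mul]
      _ ≤ ‖α‖ ^ (t + 1) := pow_le_pow_right₀ hα.le (by rw [mul_comm]; exact hK)
  have hpK0 : 0 < ‖(p : ℂ)‖ ^ K := pow_pos hp0 K
  have hq1 : 1 ≤ q := by rw [hq, one_le_div hpK0]; exact hpK
  have hY2 : 2 * Y + 1 ≤ A1 * q := by
    have e1 : ‖α‖ ^ ((t : ℤ) - k) = ‖α‖ ^ (t + 1) * ‖α‖ ^ (-1 - k) := by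
      rw [← zpow_natCast, ← zpow_add₀ hn0.ne']
      congr 1; push_cast; ring
    have e2 : 2 * Y = 4 * (‖α‖ ^ (-1 - k) * R) * q + 4 * C / ‖(p : ℂ)‖ ^ K := by
      rw [hY, hX, e1, hq]
      field_simp
      ring
    have e3 : 4 * C / ‖(p : ℂ)‖ ^ K ≤ 4 * C * q := by
      have h41 : 0 ≤ 4 * C := by positivity
      calc 4 * C / ‖(p : ℂ)‖ ^ K ≤ (4 * C * ‖α‖ ^ (t + 1)) / ‖(p : ℂ)‖ ^ K :=
            div_le_div_of_nonneg_right (le_mul_of_one_le_right h41 (one_le_pow₀ hα.le)) hpK0.le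
        _ = 4 * C * q := by rw [hq, mul_div_assoc]
    rw [e2, hA1]
    nlinarith
  have hY3 : (2 * Y + 1) ^ 2 ≤ (A1 * q) ^ 2 := pow_le_pow_left₀ (by positivity) hY2 2
  have e4 : (A1 * q) ^ 2 * (r ^ 2 * Real.pi) = A / (‖(p : ℂ)‖ ^ K) ^ 2 := by
    have e5 : r = C * (‖α‖ ^ (k + 1) * (‖α‖ ^ (t + 1))⁻¹) := by
      rw [hr]
      congr 1
      rw [← zpow_natCast, ← zpow_neg, ← zpow_add₀ hn0.ne']
      congr 1; push_cast; ring
    rw [e5, hq, hA]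
    field_simp
  have e6 : (b : ℝ) ^ K ≤ (‖(p : ℂ)‖ ^ K) ^ 2 := by
    calc (b : ℝ) ^ K ≤ (‖(p : ℂ)‖ ^ 2) ^ K := pow_le_pow_left₀ (by linarith) hpn' K
      _ = (‖(p : ℂ)‖ ^ K) ^ 2 := by rw [← pow_mul, ← pow_mul, mul_comm]
  calc (Bad.card : ℝ) * box.card * (r ^ 2 * Real.pi)
      ≤ (Bad.card : ℝ) * (A1 * q) ^ 2 * (r ^ 2 * Real.pi) := by
        apply mul_le_mul_of_nonneg_right _ (by positivity)
        exact mul_le_mul_of_nonneg_left (hbox2.trans hY3) (Nat.cast_nonneg _)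
    _ = Bad.card * (A / (‖(p : ℂ)‖ ^ K) ^ 2) := by rw [← e4]; ring
    _ ≤ Bad.card * (A / (b : ℝ) ^ K) := by
        apply mul_le_mul_of_nonneg_left _ (Nat.cast_nonneg _)
        exact div_le_div_of_nonneg_left hA0.le (by positivity) e6
    _ = A * (Bad.card / (b : ℝ) ^ K) := by ring

end Pool.Agent.Q48.GB
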