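import Mathlib

set_option autoImplicit false

/-! From good windows `(n - n/g, n]`, `n = i ^ 2`, to frequencies. -/

namespace Pool.Agent.Q48.GB

open Filter Topology

lemma lip (S : ℕ → ℝ) (p : ℝ) (hp0 : 0 ≤ p) (hp1 : p ≤ 1)
    (hS : ∀ n, S n ≤ S (n + 1) ∧ S (n + 1) ≤ S n + 1) {m n : ℕ} (hmn : m ≤ n) :
    |S n - p * n| ≤ |S m - p * m| + (n - m) := by
  have h1 : S m ≤ S n ∧ S n ≤ S m + (n - m) := by
    induction n, hmn using Nat.le_induction with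
    | base => simp
    | succ n hmn ih =>
      have := hS n
      push_cast
      constructor <;> linarith [ih.1, ih.2]
  have hmnR : (m : ℝ) ≤ n := by exact_mod_cast hmn
  have h2 : |(S n - S m) - p * (n - m)| ≤ n - m := by
    rw [abs_le]
    constructor <;> nlinarith [h1.1, h1.2]
  calc |S n - p * n| = |(S m - p * m) + ((S n - S m) - p * (n - m))| := by congr 1; ring
    _ ≤ |S m - p * m| + |(S n - S m) - p * (n - m)| := abs_add_le _ _
    _ ≤ _ := by linarith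

theorem freq_bound (S : ℕ → ℝ) (p : ℝ) (hp0 : 0 ≤ p) (hp1 : p ≤ 1) (hS0 : S 0 = 0)
    (hS : ∀ n, S n ≤ S (n + 1) ∧ S (n + 1) ≤ S n + 1) (g : ℕ) (hg : 2 ≤ g) (δ : ℝ) (hδ : 0 < δ)
    (c : ℝ) (_ : 0 ≤ c)
    (h : ∀ᶠ i : ℕ in atTop, |S (i ^ 2) - S (i ^ 2 - i ^ 2 / g) - p * ((i ^ 2 / g : ℕ) : ℝ)| ≤
      δ * ((i ^ 2 / g : ℕ) : ℝ) + c) :
    ∃ B : ℝ, ∀ n : ℕ, |S n - p * n| ≤ 2 * δ * n + B := by
  have hg0 : (0 : ℝ) < g := by exact_mod_cast (by omega : 0 < g)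
  -- large indices
  have hlarge : ∀ᶠ i : ℕ in atTop, c + 2 * i ≤ δ * ((i : ℝ) ^ 2 / g - 1) := by
    have h1 : Tendsto (fun i : ℕ => (i : ℝ)) atTop atTop := tendsto_natCast_atTop_atTop
    filter_upwards [h1.eventually (eventually_ge_atTop (max 1 ((c + 2 + δ) * g / δ)))] with i hi
    have hi1 : (1 : ℝ) ≤ i := (le_max_left _ _).trans hi
    have hi2 : (c + 2 + δ) * g / δ ≤ i := (le_max_right _ _).trans hi
    rw [div_le_iff₀ hδ] at hi2
    have h3 : (c + 2 + δ) ≤ δ * i / g := by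
      rw [le_div_iff₀ hg0]; linarith
    have h4 : δ * ((i : ℝ) ^ 2 / g - 1) = (δ * i / g) * i - δ := by field_simp
    rw [h4]
    nlinarith
  obtain ⟨i1, hi1⟩ := eventually_atTop.1 ((h.and hlarge).and (eventually_ge_atTop g))
  refine ⟨((i1 + 1 : ℕ) : ℝ) ^ 2, fun n => ?_⟩
  induction n using Nat.strong_induction_on with
  | _ n ih =>
    rcases Nat.lt_or_ge n (i1 ^ 2) with hn | hn
    · have h1 := lip S p hp0 hp1 hS (Nat.zero_le n)
      rw [hS0] at h1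
      simp only [Nat.cast_zero, mul_zero, sub_zero, abs_zero, zero_add] at h1
      have h2 : (n : ℝ) ≤ ((i1 + 1 : ℕ) : ℝ) ^ 2 := by
        have h9 : i1 ^ 2 ≤ (i1 + 1) ^ 2 := Nat.pow_le_pow_left (by omega) 2
        have : n ≤ (i1 + 1) ^ 2 := by omega
        exact_mod_cast this
      have h3 : (0 : ℝ) ≤ 2 * δ * n := by positivity
      linarith
    · set i := Nat.sqrt n with hidef
      have hi : i1 ≤ i := by rw [hidef, Nat.le_sqrt']; exact hn
      obtain ⟨⟨h1, h2⟩, h3⟩ := hi1 i hi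
      have hi2 : i ^ 2 ≤ n := Nat.sqrt_le' n
      have hi3 : n ≤ i ^ 2 + 2 * i := by
        have := Nat.sqrt_le_add n
        rw [← hidef] at this
        nlinarith
      set K := i ^ 2 / g with hK
      have hK1 : ((i : ℝ) ^ 2 / g - 1) ≤ K := by
        have h4 : i ^ 2 < g * (K + 1) := by
          rw [hK]; exact Nat.lt_mul_div_succ _ (by omega)
        have h5 : ((i ^ 2 : ℕ) : ℝ) < ((g * (K + 1) : ℕ) : ℝ) := by exact_mod_cast h4
        push_cast at h5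
        have h6 : (i : ℝ) ^ 2 / g < K + 1 := by
          rw [div_lt_iff₀ hg0]; linarith
        linarith
      have hKpos : 1 ≤ K := by
        rw [hK, Nat.one_le_div_iff (by omega)]
        nlinarith
      have hKle : K ≤ i ^ 2 := by rw [hK]; exact Nat.div_le_self _ _
      have hm := ih (i ^ 2 - K) (by omega)
      have h4 := lip S p hp0 hp1 hS hi2
      have h5 : |S (i ^ 2) - p * ((i ^ 2 : ℕ) : ℝ)| ≤
          |S (i ^ 2 - K) - p * ((i ^ 2 - K : ℕ) : ℝ)| + (δ * (K : ℝ) + c) := by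
        have e : S (i ^ 2) - p * ((i ^ 2 : ℕ) : ℝ) =
            (S (i ^ 2 - K) - p * ((i ^ 2 - K : ℕ) : ℝ)) +
              (S (i ^ 2) - S (i ^ 2 - K) - p * (K : ℝ)) := by
          rw [Nat.cast_sub hKle]; ring
        rw [e]
        exact (abs_add_le _ _).trans (by linarith)
      have h6 : (n : ℝ) - ((i ^ 2 : ℕ) : ℝ) ≤ 2 * i := by
        have : (n : ℝ) ≤ ((i ^ 2 + 2 * i : ℕ) : ℝ) := by exact_mod_cast hi3
        push_cast at this ⊢
        linarith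
      have h7 : ((i ^ 2 - K : ℕ) : ℝ) = (i : ℝ) ^ 2 - K := by
        rw [Nat.cast_sub hKle]; push_cast; ring
      have h8 : (i : ℝ) ^ 2 ≤ n := by exact_mod_cast hi2
      rw [h7] at hm
      rw [h7] at h5
      have h9 : δ * ((i : ℝ) ^ 2 / g - 1) ≤ δ * K := mul_le_mul_of_nonneg_left hK1 hδ.le
      nlinarith

theorem freq_limit (S : ℕ → ℝ) (p : ℝ) (hp0 : 0 ≤ p) (hp1 : p ≤ 1) (hS0 : S 0 = 0)
    (hS : ∀ n, S n ≤ S (n + 1) ∧ S (n + 1) ≤ S n + 1) (g : ℕ) (hg : 2 ≤ g)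
    (c : ℝ) (hc : 0 ≤ c)
    (h : ∀ q : ℕ, ∀ᶠ i : ℕ in atTop,
      |S (i ^ 2) - S (i ^ 2 - i ^ 2 / g) - p * ((i ^ 2 / g : ℕ) : ℝ)| ≤
      1 / ((q : ℝ) + 1) * ((i ^ 2 / g : ℕ) : ℝ) + c) :
    Tendsto (fun n : ℕ => S n / n) atTop (𝓝 p) := by
  rw [Metric.tendsto_atTop]
  intro ε hε
  obtain ⟨q, hq⟩ := exists_nat_one_div_lt (show 0 < ε / 4 by linarith)
  obtain ⟨B, hB⟩ := freq_bound S p hp0 hp1 hS0 hS g hg (1 / ((q : ℝ) + 1)) (by positivity) c hc (h q)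
  obtain ⟨N, hN⟩ := exists_nat_ge (2 * |B| / ε + 1)
  refine ⟨N, fun n hn => ?_⟩
  have hn0 : (1 : ℝ) ≤ n := by
    have h1 : (N : ℝ) ≤ n := by exact_mod_cast hn
    have h2 : 0 ≤ 2 * |B| / ε := by positivity
    linarith
  have hnB : |B| ≤ ε / 2 * n := by
    have h1 : (N : ℝ) ≤ n := by exact_mod_cast hn
    have h2 : 2 * |B| / ε ≤ n := by linarith
    rw [div_le_iff₀ hε] at h2
    linarith
  rw [Real.dist_eq]
  have e : S n / n - p = (S n - p * n) / n := by field_simp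
  rw [e, abs_div, abs_of_pos (show (0 : ℝ) < n by linarith), div_lt_iff₀ (by linarith)]
  have h1 := hB n
  have h2 := le_abs_self B
  nlinarith

end Pool.Agent.Q48.GB
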