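import Mathlib
import Pool.Agent.Q48.GB.Cover
import Pool.Agent.Q48.GB.Freq

set_option autoImplicit false

/-! Almost every point has the right frequencies. -/

namespace Pool.Agent.Q48.GB

open Complex Finset MeasureTheory Filter Topology
open scoped ENNReal

open Classical in
/-- the bad words -/
noncomputable def badw {b ℓ : ℕ} (K : ℕ) (w : Fin ℓ → Fin b) (δ : ℝ) : Finset (Fin K → Fin b) :=
  (Finset.univ : Finset (Fin K → Fin b)).filter (fun v => δ * K < |ZZ w v|)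

theorem ae_good {α : ℂ} {a2 a1 a0 : ℤ} (h : IsBase α a2 a1 a0) {b : ℕ} (hb : 0 < b)
    (hba : (b : ℤ) = a0) (k : ℤ) (R : ℝ) (hR : 0 ≤ R) :
    ∃ g : ℕ, 2 ≤ g ∧ ∀ (ℓ : ℕ) (_ : 1 ≤ ℓ) (w : Fin ℓ → Fin b) (δ : ℝ) (_ : 0 < δ),
      ∀ᵐ x : ℂ, ∀ᶠ i : ℕ in atTop,
        x ∉ Ebad α a2 a1 hb k R (i ^ 2) (i ^ 2 / g) (badw (i ^ 2 / g) w δ) := by
  classical
  obtain ⟨g, hg2, hg⟩ := Ebad_measure h hb hba k R hR
  obtain ⟨A, hA, hmeas⟩ := hg g le_rfl
  refine ⟨g, hg2, fun ℓ hℓ w δ hδ => ?_⟩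
  have hb1 : (1 : ℝ) ≤ b := by exact_mod_cast hb
  have hg0 : (0 : ℝ) < g := by exact_mod_cast (by omega : 0 < g)
  set A4 : ℝ := A * (4 * g * ℓ / δ ^ 2 + g) with hA4
  have hbound : ∀ i : ℕ, volume (Ebad α a2 a1 hb k R ((i + 1) ^ 2) ((i + 1) ^ 2 / g)
      (badw ((i + 1) ^ 2 / g) w δ)) ≤ ENNReal.ofReal (A4 * (1 / ((i : ℝ) + 1) ^ 2)) := by
    intro i
    have h1 := hmeas ((i + 1) ^ 2) ((i + 1) ^ 2 / g) (Nat.one_le_pow _ _ (by omega))
      (Nat.div_mul_le_self _ _) (badw ((i + 1) ^ 2 / g) w δ)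
    refine h1.trans (ENNReal.ofReal_le_ofReal ?_)
    set K := (i + 1) ^ 2 / g with hK
    have hi0 : (0 : ℝ) < ((i : ℝ) + 1) ^ 2 := by positivity
    have hbK : (0 : ℝ) < (b : ℝ) ^ K := by positivity
    rw [hA4, mul_assoc]
    apply mul_le_mul_of_nonneg_left _ hA.le
    rcases Nat.eq_zero_or_pos K with h0 | hKpos
    · -- trivial bound
      have h2 : ((badw K w δ).card : ℝ) ≤ (b : ℝ) ^ K := by
        have : (badw K w δ).card ≤ b ^ K := by
          refine (Finset.card_le_univ _).trans (le_of_eq ?_)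
          simp
        exact_mod_cast this
      have h3 : ((i : ℝ) + 1) ^ 2 ≤ g := by
        rw [hK, Nat.div_eq_zero_iff] at h0
        rcases h0 with h0 | h0
        · omega
        · exact_mod_cast h0.le
      calc ((badw K w δ).card : ℝ) / (b : ℝ) ^ K ≤ 1 := (div_le_one hbK).2 h2
        _ ≤ g * (1 / ((i : ℝ) + 1) ^ 2) := by
            rw [mul_one_div, le_div_iff₀ hi0]; linarith
        _ ≤ (4 * g * ℓ / δ ^ 2 + g) * (1 / ((i : ℝ) + 1) ^ 2) := by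
            apply mul_le_mul_of_nonneg_right _ (by positivity)
            have : 0 ≤ 4 * g * ℓ / δ ^ 2 := by positivity
            linarith
    · have h2 := card_bad (K := K) w hb hℓ δ hδ
      have hKR : (0 : ℝ) < K := by exact_mod_cast hKpos
      have h3 : ((badw K w δ).card : ℝ) / (b : ℝ) ^ K ≤ 2 * ℓ / δ ^ 2 / K := by
        rw [div_le_div_iff₀ hbK hKR]
        exact h2
      have h4 : ((i : ℝ) + 1) ^ 2 ≤ 2 * g * K := by
        have h5 : (i + 1) ^ 2 < g * (K + 1) := by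
          rw [hK]; exact Nat.lt_mul_div_succ _ (by omega)
        have h6 : (i + 1) ^ 2 ≤ 2 * g * K := by
          have h7 : g * (K + 1) ≤ g * (2 * K) := Nat.mul_le_mul_left _ (by omega)
          have h8 : g * (2 * K) = 2 * g * K := by ring
          omega
        exact_mod_cast h6
      calc ((badw K w δ).card : ℝ) / (b : ℝ) ^ K ≤ 2 * ℓ / δ ^ 2 / K := h3
        _ ≤ (4 * g * ℓ / δ ^ 2) * (1 / ((i : ℝ) + 1) ^ 2) := by
            rw [mul_one_div, div_le_div_iff₀ hKR hi0]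
            have h9 : 0 ≤ 2 * ℓ / δ ^ 2 := by positivity
            calc 2 * ℓ / δ ^ 2 * ((i : ℝ) + 1) ^ 2 ≤ 2 * ℓ / δ ^ 2 * (2 * g * K) :=
                  mul_le_mul_of_nonneg_left h4 h9
              _ = 4 * g * ℓ / δ ^ 2 * K := by ring
        _ ≤ _ := by
            apply mul_le_mul_of_nonneg_right _ (by positivity)
            linarith
  have hsum : Summable (fun i : ℕ => A4 * (1 / ((i : ℝ) + 1) ^ 2)) := by
    apply Summable.mul_left
    have h1 : Summable (fun i : ℕ => 1 / (i : ℝ) ^ 2) := Real.summable_one_div_nat_pow.2 (by norm_num)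
    have h2 := (summable_nat_add_iff 1).2 h1
    refine h2.congr (fun i => ?_)
    push_cast
    rfl
  have hne : ∑' i : ℕ, volume (Ebad α a2 a1 hb k R ((i + 1) ^ 2) ((i + 1) ^ 2 / g)
      (badw ((i + 1) ^ 2 / g) w δ)) ≠ ∞ := by
    have h1 := ENNReal.tsum_le_tsum hbound
    exact (h1.trans_lt hsum.tsum_ofReal_lt_top).ne
  filter_upwards [ae_eventually_notMem hne] with x hx
  rw [eventually_atTop] at hx ⊢
  obtain ⟨N, hN⟩ := hx
  refine ⟨N + 1, fun i hi => ?_⟩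
  obtain ⟨j, rfl⟩ : ∃ j, i = j + 1 := ⟨i - 1, by omega⟩
  exact hN j (by omega)

open Classical in
/-- number of occurrences among the first `n` places -/
noncomputable def SS {b ℓ : ℕ} (w : Fin ℓ → Fin b) (e : ℕ → ℕ) (n : ℕ) : ℝ :=
  ∑ s ∈ range n, if (∀ j : Fin ℓ, e (s + j) = w j) then (1 : ℝ) else 0

lemma SS_succ {b ℓ : ℕ} (w : Fin ℓ → Fin b) (e : ℕ → ℕ) (n : ℕ) :
    SS w e n ≤ SS w e (n + 1) ∧ SS w e (n + 1) ≤ SS w e n + 1 := by
  classical
  have h : SS w e (n + 1) = SS w e n + if (∀ j : Fin ℓ, e (n + j) = w j) then (1 : ℝ) else 0 := by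
    unfold SS
    rw [Finset.sum_range_succ]
  rw [h]
  split_ifs <;> constructor <;> linarith

lemma SS_add {b ℓ : ℕ} (w : Fin ℓ → Fin b) (e : ℕ → ℕ) (a M : ℕ) :
    SS w e a ≤ SS w e (a + M) ∧ SS w e (a + M) ≤ SS w e a + M := by
  induction M with
  | zero => simp
  | succ M ih =>
    have := SS_succ w e (a + M)
    rw [← add_assoc]
    push_cast
    constructor <;> linarith [ih.1, ih.2]

lemma ZZ_eq {b ℓ : ℕ} (hb : 0 < b) (w : Fin ℓ → Fin b) (e : ℕ → ℕ) (he : ∀ s, e s < b) (n K : ℕ) :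
    ZZ w (wd hb e n K) = SS w e (n - K + (K + 1 - ℓ)) - SS w e (n - K) -
      ((b : ℝ) ^ ℓ)⁻¹ * ((K + 1 - ℓ : ℕ) : ℝ) := by
  classical
  have h1 : ∀ i ∈ range (K + 1 - ℓ), ff w i (wd hb e n K) =
      (if (∀ j : Fin ℓ, e (n - K + i + j) = w j) then (1 : ℝ) else 0) - ((b : ℝ) ^ ℓ)⁻¹ := by
    intro i hi
    rw [Finset.mem_range] at hi
    unfold ff
    have h2 : Oc w (wd hb e n K) i ↔ ∀ j : Fin ℓ, e (n - K + i + j) = w j := by
      unfold Oc wd
      constructor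
      · intro h j
        have h3 := h j (by omega)
        have h4 := congrArg Fin.val h3
        simp only [Nat.mod_eq_of_lt (he _)] at h4
        rw [← h4]
        congr 1
        ring
      · intro h j hj
        apply Fin.ext
        simp only [Nat.mod_eq_of_lt (he _)]
        rw [← h j]
        congr 1
        ring
    simp only [h2]
  unfold ZZ
  rw [Finset.sum_congr rfl h1, Finset.sum_sub_distrib, Finset.sum_const, Finset.card_range,
    nsmul_eq_mul, mul_comm]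
  congr 1
  have h3 : ∀ M, SS w e (n - K + M) - SS w e (n - K) =
      ∑ i ∈ range M, (if (∀ j : Fin ℓ, e (n - K + i + j) = w j) then (1 : ℝ) else 0) := by
    intro M
    induction M with
    | zero => simp
    | succ M ih =>
      rw [Finset.sum_range_succ, ← ih, ← add_assoc]
      unfold SS
      rw [Finset.sum_range_succ]
      ring
  exact (h3 _).symm

lemma window {b ℓ : ℕ} (hb : 0 < b) (hℓ : 1 ≤ ℓ) (w : Fin ℓ → Fin b) (e : ℕ → ℕ)
    (he : ∀ s, e s < b) (n K : ℕ) (hK : K ≤ n) (δ : ℝ) (h : |ZZ w (wd hb e n K)| ≤ δ * K) :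
    |SS w e n - SS w e (n - K) - ((b : ℝ) ^ ℓ)⁻¹ * K| ≤ δ * K + ℓ := by
  have hb1 : (1 : ℝ) ≤ b := by exact_mod_cast hb
  have hp0 : (0 : ℝ) ≤ ((b : ℝ) ^ ℓ)⁻¹ := by positivity
  have hp1 : ((b : ℝ) ^ ℓ)⁻¹ ≤ 1 := inv_le_one_of_one_le₀ (one_le_pow₀ hb1)
  rw [ZZ_eq hb w e he] at h
  set M := K + 1 - ℓ with hM
  have hMK : M ≤ K := by omega
  have h1 := SS_add w e (n - K + M) (K - M)
  rw [show n - K + M + (K - M) = n by omega] at h1
  have h2 : ((K - M : ℕ) : ℝ) = (K : ℝ) - M := by rw [Nat.cast_sub hMK]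
  have h3 : (K : ℝ) - M ≤ ℓ := by
    rw [← h2]
    exact_mod_cast (by omega : K - M ≤ ℓ)
  have h4 : (0 : ℝ) ≤ (K : ℝ) - M := by rw [← h2]; positivity
  rw [h2] at h1
  rw [abs_le] at h ⊢
  constructor <;> nlinarith [h.1, h.2, h1.1, h1.2]

theorem ae_freq {α : ℂ} {a2 a1 a0 : ℤ} (h : IsBase α a2 a1 a0) {b : ℕ} (hb : 0 < b)
    (hba : (b : ℤ) = a0) :
    ∀ᵐ x : ℂ, ∀ (k : ℤ) (e : ℕ → ℕ), IsExp α a2 a1 b k x e → ∀ ℓ : ℕ, 1 ≤ ℓ →
      ∀ w : Fin ℓ → Fin b, Tendsto (fun n : ℕ => SS w e n / n) atTop (𝓝 ((b : ℝ) ^ ℓ)⁻¹) := by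
  classical
  choose g hg2 hg using fun (k : ℤ) (R : ℕ) => ae_good h hb hba k (R : ℝ) (Nat.cast_nonneg R)
  have h1 : ∀ᵐ x : ℂ, ∀ (k : ℤ) (R : ℕ) (ℓ : ℕ) (w : Fin ℓ → Fin b) (q : ℕ), 1 ≤ ℓ →
      ∀ᶠ i : ℕ in atTop, x ∉ Ebad α a2 a1 hb k R (i ^ 2) (i ^ 2 / g k R)
        (badw (i ^ 2 / g k R) w (1 / ((q : ℝ) + 1))) := by
    rw [ae_all_iff]; intro k
    rw [ae_all_iff]; intro R
    rw [ae_all_iff]; intro ℓ
    rw [ae_all_iff]; intro w
    rw [ae_all_iff]; intro q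
    by_cases hℓ : 1 ≤ ℓ
    · filter_upwards [hg k R ℓ hℓ w (1 / ((q : ℝ) + 1)) (by positivity)] with x hx
      exact fun _ => hx
    · exact Eventually.of_forall (fun x hx => absurd hx hℓ)
  filter_upwards [h1] with x hx k e he ℓ hℓ w
  obtain ⟨R, hR⟩ := exists_nat_ge ‖x‖
  have hb1 : (1 : ℝ) ≤ b := by exact_mod_cast hb
  have hp0 : (0 : ℝ) ≤ ((b : ℝ) ^ ℓ)⁻¹ := by positivity
  have hp1 : ((b : ℝ) ^ ℓ)⁻¹ ≤ 1 := inv_le_one_of_one_le₀ (one_le_pow₀ hb1)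
  apply freq_limit (SS w e) _ hp0 hp1 (by simp [SS]) (SS_succ w e) (g k R) (hg2 k R) ℓ
    (Nat.cast_nonneg _)
  intro q
  filter_upwards [hx k R ℓ w q hℓ] with i hi
  apply window hb hℓ w e he.dig _ _ (Nat.div_le_self _ _)
  by_contra hcon
  push Not at hcon
  apply hi
  refine ⟨hR, e, he, ?_⟩
  unfold badw
  rw [Finset.mem_filter]
  exact ⟨Finset.mem_univ _, hcon⟩

end Pool.Agent.Q48.GB
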